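import Pool.Agent.Helper724_Q.UpQ

set_option autoImplicit false

/-!
# For almost all `n` both parts of every representation are large

`P j` is the `j`-th prime, `P 1 = 2`.
-/

namespace Pool.Agent.Results.MP_04ff0f_nt.BothPartsLarge

open Finset Filter
open Pool.Agent.Helper724_Q (AI AI_le)

/-- the `j`-th prime, for `j ≥ 1` (`P 1 = 2`) -/
noncomputable def P (j : ℕ) : ℕ := Nat.nth Nat.Prime (j - 1)

/-- `n = k + m` with `k, m ≥ 1` and `p_k ^ 2 - 2`, `p_m ^ 2 - 2` prime, where `k ≤ F` or `m ≤ F` -/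
def SmallPart (F n : ℕ) : Prop :=
  ∃ k m : ℕ, 1 ≤ k ∧ 1 ≤ m ∧ k + m = n ∧ (P k ^ 2 - 2).Prime ∧ (P m ^ 2 - 2).Prime ∧ (k ≤ F ∨ m ≤ F)

open Classical in
/-- the number of these `n ≤ x` -/
noncomputable def numbers (x F : ℕ) : ℕ := ((Icc 1 x).filter (fun n => SmallPart F n)).card

theorem numbers_le (x F : ℕ) :
    numbers x F ≤ (AI ∩ Set.Icc 1 F).ncard * (AI ∩ Set.Icc 1 x).ncard := by
  classical
  have hfin : ∀ y : ℕ, (AI ∩ Set.Icc 1 y).Finite := fun y =>
    (Set.finite_Icc 1 y).subset Set.inter_subset_right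
  have h1 : ((Icc 1 x).filter (fun n => SmallPart F n) : Set ℕ) ⊆
      (fun t : ℕ × ℕ => t.1 + t.2) '' ((AI ∩ Set.Icc 1 F) ×ˢ (AI ∩ Set.Icc 1 x)) := by
    intro n hn
    simp only [coe_filter, Set.mem_ofPred_eq, mem_Icc] at hn
    obtain ⟨⟨_, hn2⟩, k, m, hk, hm, hkm, hpk, hpm, h⟩ := hn
    rcases h with h | h
    · exact ⟨(k, m), ⟨⟨⟨hk, hpk⟩, hk, h⟩, ⟨hm, hpm⟩, hm, by omega⟩, hkm⟩
    · exact ⟨(m, k), ⟨⟨⟨hm, hpm⟩, hm, h⟩, ⟨hk, hpk⟩, hk, by omega⟩, by simpa [add_comm] using hkm⟩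
  unfold numbers
  rw [← Set.ncard_coe_finset]
  calc ((Icc 1 x).filter (fun n => SmallPart F n) : Set ℕ).ncard
      ≤ ((fun t : ℕ × ℕ => t.1 + t.2) '' ((AI ∩ Set.Icc 1 F) ×ˢ (AI ∩ Set.Icc 1 x))).ncard :=
        Set.ncard_le_ncard h1 (((hfin F).prod (hfin x)).image _)
    _ ≤ ((AI ∩ Set.Icc 1 F) ×ˢ (AI ∩ Set.Icc 1 x)).ncard := Set.ncard_image_le ((hfin F).prod (hfin x))
    _ = _ := Set.ncard_prod

/-- **For almost all `n` both parts are large.** There is `C` such that for all `x, F ≥ 2` at most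
`C (F / log F) (x / log x)` of the integers `n ≤ x` are a sum `k + m` with `p_k ^ 2 - 2` and `p_m ^ 2 - 2`
prime and `min (k, m) ≤ F`. For every `ε > 0` there is `c > 0` such that for all large `x` at most `ε x` of the
integers `n ≤ x` have such a representation with `min (k, m) ≤ c log x log log x`. -/
theorem result : (∃ C : ℝ, 0 < C ∧ ∀ x F : ℕ, 2 ≤ x → 2 ≤ F →
      (numbers x F : ℝ) ≤ C * ((F / Real.log F) * (x / Real.log x))) ∧
    ∀ ε : ℝ, 0 < ε → ∃ c : ℝ, 0 < c ∧ ∀ᶠ x : ℕ in atTop,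
      (numbers x ⌊c * (Real.log x * Real.log (Real.log x))⌋₊ : ℝ) ≤ ε * x := by
  obtain ⟨C, hC, h⟩ := AI_le
  have hmain : ∀ x F : ℕ, 2 ≤ x → 2 ≤ F →
      (numbers x F : ℝ) ≤ (C ^ 2) * ((F / Real.log F) * (x / Real.log x)) := by
    intro x F hx hF
    have h1 : (numbers x F : ℝ) ≤ ((AI ∩ Set.Icc 1 F).ncard : ℝ) * ((AI ∩ Set.Icc 1 x).ncard : ℝ) := by
      exact_mod_cast numbers_le x F
    have h2 := h x hx
    have h3 := h F hF
    calc (numbers x F : ℝ) ≤ ((AI ∩ Set.Icc 1 F).ncard : ℝ) * ((AI ∩ Set.Icc 1 x).ncard : ℝ) := h1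
      _ ≤ (C * (F / Real.log F)) * (C * (x / Real.log x)) := by
        apply mul_le_mul h3 h2 (Nat.cast_nonneg _)
        exact (Nat.cast_nonneg _).trans h3
      _ = _ := by ring
  refine ⟨⟨C ^ 2, by positivity, hmain⟩, ?_⟩
  intro ε hε
  set c : ℝ := ε / (2 * C ^ 2) with hc
  have hc0 : 0 < c := by positivity
  refine ⟨c, hc0, ?_⟩
  have hlog : Tendsto (fun x : ℕ => Real.log (x : ℝ)) atTop atTop :=
    Real.tendsto_log_atTop.comp tendsto_natCast_atTop_atTop
  have hll : Tendsto (fun x : ℕ => Real.log (Real.log (x : ℝ))) atTop atTop :=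
    Real.tendsto_log_atTop.comp hlog
  filter_upwards [hlog.eventually_ge_atTop 4, hll.eventually_ge_atTop (2 / c + 2), eventually_ge_atTop 2]
    with x h1 h2 hx
  set L : ℝ := Real.log x with hL
  set l : ℝ := Real.log L with hl
  have hL0 : 0 < L := by linarith
  have hl0 : 0 < l := by
    have : 0 < 2 / c := by positivity
    linarith
  have hcl : 2 ≤ c * l := by
    have h3 : c * (2 / c + 2) ≤ c * l := by gcongr
    have h4 : c * (2 / c + 2) = 2 + 2 * c := by field_simp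
    linarith
  have hG : 2 * L ≤ c * (L * l) := by
    calc 2 * L ≤ (c * l) * L := by gcongr
      _ = c * (L * l) := by ring
  set F : ℕ := ⌊c * (L * l)⌋₊ with hF
  have hFle : (F : ℝ) ≤ c * (L * l) := Nat.floor_le (by positivity)
  have hFge : L ≤ F := by
    have := Nat.lt_floor_add_one (c * (L * l))
    rw [← hF] at this
    linarith
  have hF2 : 2 ≤ F := by
    have : (2 : ℝ) ≤ F := by linarith
    exact_mod_cast this
  have hlF : l ≤ Real.log F := Real.log_le_log hL0 hFge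
  have hx0 : (0 : ℝ) < x := by
    have : (2 : ℝ) ≤ x := by exact_mod_cast hx
    linarith
  calc (numbers x F : ℝ) ≤ (C ^ 2) * ((F / Real.log F) * (x / L)) := hmain x F hx hF2
    _ ≤ (C ^ 2) * ((c * (L * l) / l) * (x / L)) := by gcongr
    _ = C ^ 2 * c * x := by field_simp
    _ ≤ ε * x := by
      have : C ^ 2 * c = ε / 2 := by
        rw [hc]
        field_simp
      rw [this]
      nlinarith

end Pool.Agent.Results.MP_04ff0f_nt.BothPartsLarge
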